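import Pool.Agent.PAB.Main

set_option autoImplicit false

namespace Pool.Agent.Results.MP_b9f16b_lc.LawReduction

open Pool.Agent.PAB

/-- Let `L` be a finite set of laws such that all finite groups satisfying `L` are abelian, and let `u`
be a word all of whose values in groups satisfying `L` are small elements (for instance: a power
`u ^ (2 ^ a)`, or a power `⁅u, z⁆ ^ (3 * 2 ^ a)` with a new variable `z`, is a law there).
Then all groups satisfying `L` are abelian iff all groups satisfying `L` and `u = 1` are. -/
theorem result (L : List (List (ℕ × Bool)))
    (hL : ∀ (G : Type) [Group G], Finite G → Sat L G → Comm G) (u : List (ℕ × Bool))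
    (hu : ∀ (G : Type) [Group G], Sat L G → ∀ f : ℕ → G,
      Small (FreeGroup.lift f (FreeGroup.mk u))) :
    (∀ (G : Type) [Group G], Sat L G → Comm G) ↔
      (∀ (G : Type) [Group G], Sat (u :: L) G → Comm G) := by
  have hPA : PA L := (PA_iff_finite L).2 hL
  constructor
  · intro h G _ hs
    exact h G ((sat_cons _ _ _).1 hs).2
  · intro h G _ hs
    apply comm_of_center_quot hPA hs
    apply h
    rw [sat_cons]
    refine ⟨?_, sat_quot hs _⟩
    apply law_quot_center
    intro f
    exact small_central hPA hs _ (hu G hs f)

end Pool.Agent.Results.MP_b9f16b_lc.LawReduction
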