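import Pool.Agent.PAB.Main

set_option autoImplicit false

namespace Pool.Agent.Results.MP_b9f16b_lc.TameDecision

open Pool.Agent.PAB

/-- There is an algorithm `D` which decides, for finite sets `L` of laws, whether all finite groups
satisfying `L` are abelian; this happens exactly if all tame groups satisfying `L` are abelian; and if
the greatest common divisor of the exponent sums of `L` divides some `3 * 2 ^ a`, then it happens exactly
if all groups satisfying `L` are abelian, so that `D` decides the question of MP_b9f16b_lc for these `L`. -/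
theorem result : ∃ D : List (List (ℕ × Bool)) → Bool, Computable D ∧
    ∀ L : List (List (ℕ × Bool)),
      (D L = true ↔ ∀ (G : Type) [Group G], Finite G → Sat L G → Comm G) ∧
      (D L = true ↔ ∀ (G : Type) [Group G], Tame G → Sat L G → Comm G) ∧
      ((∃ a : ℕ, expo L ∣ 3 * 2 ^ a) →
        (D L = true ↔ ∀ (G : Type) [Group G], Sat L G → Comm G)) := by
  obtain ⟨D, hD, h⟩ := exists_D
  refine ⟨D, hD, fun L => ?_⟩
  have h1 : D L = true ↔ PA L := (h L).trans (test_iff L)
  refine ⟨h1.trans (PA_iff_finite L), h1.trans (PA_iff_tame L), ?_⟩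
  rintro ⟨a, ha⟩
  rw [h1]
  exact ⟨fun hL G _ hs => comm_of_expo hL a ha G hs, fun h G _ _ hs => h G hs⟩

end Pool.Agent.Results.MP_b9f16b_lc.TameDecision
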